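import Pool.Agent.Helper18.PB2.Goals
import Pool.Agent.Helper84.PB.F2

/-! EX: existence of the space with the norm `nm` (packet PB2-EX). -/

set_option autoImplicit false

open MeasureTheory Measure

namespace Pool.Agent.Helper19.PB2

open Pool.Agent.Helper18.PB Pool.Agent.Helper18.PB2

section
variable {n M : ℕ} {a : ℕ → ℝ → Eu n} {c : ℕ → ℝ} {b : Fin M → ℝ → Eu n} {A : ℕ → ℝ} {B : ℝ}

theorem sms (hd : Dat a c b A B) (u : ℝ) : Summable (fun k => c k * ‖a k u‖) :=
  Summable.of_nonneg_of_le (fun k => mul_nonneg (hd.cpos k).le (norm_nonneg _))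
    (fun k => mul_le_mul_of_nonneg_left (hd.ba k u) (hd.cpos k).le) hd.csum

theorem nm_nonneg (hd : Dat a c b A B) (x : Eu n) : 0 ≤ nm a c b x :=
  integral_nonneg fun _ => Pool.Agent.Helper84.PB.nrm_nonneg hd.cpos x

theorem nm_smul (t : ℝ) (x : Eu n) : nm a c b (t • x) = ‖t‖ * nm a c b x := by
  unfold nm
  rw [← integral_const_mul]
  refine integral_congr_ae (Filter.Eventually.of_forall fun u => ?_)
  exact Pool.Agent.Helper84.PB.nrm_smul t x

theorem nm_add (hD : HD2) (hd : Dat a c b A B) (x y : Eu n) :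
    nm a c b (x + y) ≤ nm a c b x + nm a c b y := by
  have hI := (hD n M a c b A B hd).1
  unfold nm
  rw [← integral_add (hI x) (hI y)]
  exact integral_mono (hI (x + y)) ((hI x).add (hI y))
    fun u => Pool.Agent.Helper84.PB.nrm_add hd.cpos (sms hd u) x y

theorem nm_pos (hD : HD2) (hd : Dat a c b A B)
    (hp : ∀ x, x ≠ 0 → ∃ k, ∀ u, 0 < inner ℝ (a k u) x) (x : Eu n) (hx : x ≠ 0) :
    0 < nm a c b x := by
  obtain ⟨k, hk⟩ := hp x hx
  have hI := (hD n M a c b A B hd).1 x
  have hpos : ∀ u, 0 < nrm (fun k => a k u) c (fun i => b i u) x := by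
    intro u
    unfold nrm
    have h1 : c k * |inner ℝ (a k u) x| ≤ ∑' k, c k * |inner ℝ (a k u) x| :=
      (Pool.Agent.Helper84.PB.sm hd.cpos (sms hd u) x).le_tsum k
        fun j _ => mul_nonneg (hd.cpos j).le (abs_nonneg _)
    have h2 : 0 < c k * |inner ℝ (a k u) x| := mul_pos (hd.cpos k) (abs_pos.2 (hk u).ne')
    have h3 : 0 ≤ ‖(fun i : Fin M => (inner ℝ (b i u) x : ℝ))‖ := norm_nonneg _
    linarith
  unfold nm
  rw [setIntegral_pos_iff_support_of_nonneg_ae
    (Filter.Eventually.of_forall fun u => (hpos u).le) hI]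
  have h4 : Function.support (fun u => nrm (fun k => a k u) c (fun i => b i u) x) = Set.univ := by
    ext u
    simp [Function.mem_support, (hpos u).ne']
  rw [h4, Set.univ_inter]
  simp

end

/-- type synonym -/
def YY (n : ℕ) : Type := Eu n

instance (n : ℕ) : AddCommGroup (YY n) := inferInstanceAs (AddCommGroup (Eu n))

instance (n : ℕ) : Module ℝ (YY n) := inferInstanceAs (Module ℝ (Eu n))

theorem ex : HD2 → HEx := by
  intro hD n M a c b A B hd hp
  let N : Norm (YY n) := ⟨fun x => nm a c b x⟩
  have core : NormedSpace.Core ℝ (YY n) :=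
    { norm_nonneg := fun x => nm_nonneg hd x
      norm_smul := fun t x => nm_smul t x
      norm_triangle := fun x y => nm_add hD hd x y
      norm_eq_zero_iff := fun x => by
        constructor
        · intro h
          by_contra hx
          exact (nm_pos hD hd hp x hx).ne' h
        · intro h
          have h1 : nm a c b ((0 : ℝ) • (0 : Eu n)) = 0 := by
            rw [nm_smul, norm_zero, zero_mul]
          rw [zero_smul] at h1
          rw [h]
          exact h1 }
  let i1 : NormedAddCommGroup (YY n) := NormedAddCommGroup.ofCore core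
  let i2 : NormedSpace ℝ (YY n) := NormedSpace.ofCore core
  exact ⟨YY n, i1, i2, LinearEquiv.refl ℝ (Eu n), fun x => rfl⟩

end Pool.Agent.Helper19.PB2
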